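import Pool.Agent.Helper37.LPP.Taylor
import Pool.Agent.Helper97.LPP.Mgf

/-! LPP-6: asymptotic lower bound for exponential moments. -/

open MeasureTheory ProbabilityTheory Filter Topology
open scoped ENNReal

namespace Helper97.LPP

variable {Ω : Type*} [MeasurableSpace Ω] {P : Measure Ω} [IsProbabilityMeasure P]
  {X : ℕ × ℕ → Ω → ℝ}

omit [IsProbabilityMeasure P] in
theorem h37_emom_mono (h : IsExpField P X) {θ : ℝ} (hθ : 0 ≤ θ) {q q' : ℕ × ℕ} (hq : q ≤ q') :
    emom P X θ (0, 0) q ≤ emom P X θ (0, 0) q' := by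
  unfold emom
  refine lintegral_mono_ae ?_
  filter_upwards [h.ae_pos] with ω hω
  refine ENNReal.ofReal_le_ofReal (Real.exp_le_exp.2 ?_)
  refine mul_le_mul_of_nonneg_left ?_ hθ
  refine lp_mono_rect (fun w => (hω w).le) le_rfl ?_ hq
  exact ⟨Nat.zero_le _, Nat.zero_le _⟩

theorem h37_hC_pos {z w : ℝ} (hz : 0 < z) (hzw : z < w) : 0 < hC z w := by
  unfold hC
  apply Real.log_pos
  rwa [one_lt_div hz]

theorem h37_hR_pos {z w : ℝ} (hzw : z < w) (hw : w < 1) : 0 < hR z w := by
  unfold hR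
  apply Real.log_pos
  rw [one_lt_div (by linarith)]
  linarith

/-- the real inequality behind the bound for distant exit points -/
theorem h37_far {a b z w κ : ℝ} (ha : 0 < a) (hb : 0 < b) (hz : 0 < z)
    (hzw : z < w) (hw : w < 1) (hcrit : a / w + b / (1 - w) = a / z + b / (1 - z)) (hκ : 0 < κ) :
    ∃ c > 0, ∃ η > 0, η < z ∧ w + η < 1 ∧ ∀ᶠ N : ℕ in atTop, ∀ m n k : ℝ,
      a * N ≤ m + 1 → m + 1 ≤ a * N + 1 → b * N ≤ n + 1 → n + 1 ≤ b * N + 1 → κ * N ≤ k →
      (k ≤ m → (k + 1) * hC z w +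
        ((m - k + 1) * hC (z - η) (w - η) + (n + 1) * hR (z - η) (w - η)) ≤
        (m + 1) * hC z w + (n + 1) * hR z w - c * N) ∧
      (k ≤ n → (k + 1) * hR z w +
        ((m + 1) * hC (z + η) (w + η) + (n - k + 1) * hR (z + η) (w + η)) ≤
        (m + 1) * hC z w + (n + 1) * hR z w - c * N) := by
  obtain ⟨C₁, hC₁, t₁, ht₁, h₁⟩ := hC_taylor hz (hz.trans hzw) 1 1
  obtain ⟨C₂, hC₂, t₂, ht₂, h₂⟩ := hR_taylor (hzw.trans hw) hw 1 1
  have hz1 : 0 < 1 - z := by linarith
  have hw1 : 0 < 1 - w := by linarith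
  have hw0 : 0 < w := hz.trans hzw
  set d : ℝ := 1 / z - 1 / w with hd
  set d' : ℝ := 1 / (1 - w) - 1 / (1 - z) with hd'
  have dpos : 0 < d := by
    have := one_div_lt_one_div_of_lt hz hzw
    rw [hd]; linarith
  have d'pos : 0 < d' := by
    have := one_div_lt_one_div_of_lt hw1 (by linarith : 1 - w < 1 - z)
    rw [hd']; linarith
  have hdd : a * d = b * d' := by
    rw [hd, hd']
    have e1 : a / w = a * (1 / w) := by ring
    have e2 : a / z = a * (1 / z) := by ring
    have e3 : b / (1 - w) = b * (1 / (1 - w)) := by ring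
    have e4 : b / (1 - z) = b * (1 / (1 - z)) := by ring
    rw [e1, e2, e3, e4] at hcrit
    linarith
  set C : ℝ := C₁ + C₂ with hCdef
  have hCp : 0 < C := by positivity
  set μ : ℝ := min d d' * κ with hμ
  have μpos : 0 < μ := by positivity
  set η : ℝ := min (min t₁ t₂) (min (min (z / 2) ((1 - w) / 2)) (μ / (2 * C * (a + b)))) with hη
  have ηpos : 0 < η := by positivity
  have η1 : η ≤ t₁ := (min_le_left _ _).trans (min_le_left _ _)
  have η2 : η ≤ t₂ := (min_le_left _ _).trans (min_le_right _ _)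
  have η3 : η ≤ z / 2 := (min_le_right _ _).trans ((min_le_left _ _).trans (min_le_left _ _))
  have η4 : η ≤ (1 - w) / 2 :=
    (min_le_right _ _).trans ((min_le_left _ _).trans (min_le_right _ _))
  have η5 : η ≤ μ / (2 * C * (a + b)) := (min_le_right _ _).trans (min_le_right _ _)
  have η5' : C * η * (a + b) ≤ μ / 2 := by
    rw [le_div_iff₀ (by positivity)] at η5
    linarith
  clear_value η
  refine ⟨η * μ / 4, by positivity, η, ηpos, by linarith, by linarith, ?_⟩
  -- Taylor bounds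
  have T1 : hC (z - η) (w - η) ≤ hC z w + η * d + C * η ^ 2 := by
    obtain ⟨_, _, h⟩ := h₁ (-η) (by rw [abs_neg, abs_of_pos ηpos]; exact η1)
    have e1 : z + 1 * -η = z - η := by ring
    have e2 : w + 1 * -η = w - η := by ring
    rw [e1, e2] at h
    have : C₁ * (-η) ^ 2 ≤ C * η ^ 2 := by
      rw [neg_sq]; exact mul_le_mul_of_nonneg_right (by linarith) (sq_nonneg η)
    have e3 : -η * (1 / w - 1 / z) = η * d := by rw [hd]; ring
    linarith
  have T2 : hR (z - η) (w - η) ≤ hR z w - η * d' + C * η ^ 2 := by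
    obtain ⟨_, _, h⟩ := h₂ (-η) (by rw [abs_neg, abs_of_pos ηpos]; exact η2)
    have e1 : z + 1 * -η = z - η := by ring
    have e2 : w + 1 * -η = w - η := by ring
    rw [e1, e2] at h
    have : C₂ * (-η) ^ 2 ≤ C * η ^ 2 := by
      rw [neg_sq]; exact mul_le_mul_of_nonneg_right (by linarith) (sq_nonneg η)
    have e3 : -η * (1 / (1 - w) - 1 / (1 - z)) = -(η * d') := by rw [hd']; ring
    linarith
  have T3 : hC (z + η) (w + η) ≤ hC z w - η * d + C * η ^ 2 := by
    obtain ⟨_, _, h⟩ := h₁ η (by rw [abs_of_pos ηpos]; exact η1)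
    rw [one_mul] at h
    have : C₁ * η ^ 2 ≤ C * η ^ 2 := mul_le_mul_of_nonneg_right (by linarith) (sq_nonneg η)
    have e3 : η * (1 / w - 1 / z) = -(η * d) := by rw [hd]; ring
    linarith
  have T4 : hR (z + η) (w + η) ≤ hR z w + η * d' + C * η ^ 2 := by
    obtain ⟨_, _, h⟩ := h₂ η (by rw [abs_of_pos ηpos]; exact η2)
    rw [one_mul] at h
    have : C₂ * η ^ 2 ≤ C * η ^ 2 := mul_le_mul_of_nonneg_right (by linarith) (sq_nonneg η)
    linarith
  have hcp := h37_hC_pos hz hzw
  have hrp := h37_hR_pos hzw hw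
  -- large `N`
  have hN : ∀ᶠ N : ℕ in atTop,
      hC z w + hR z w + η * d + η * d' + 2 * (C * η ^ 2) ≤ η * μ / 4 * N := by
    have : Tendsto (fun N : ℕ => η * μ / 4 * (N : ℝ)) atTop atTop :=
      tendsto_natCast_atTop_atTop.const_mul_atTop (by positivity)
    exact this.eventually_ge_atTop _
  filter_upwards [hN] with N hN m n k hm1 hm2 hn1 hn2 hk
  have N0 : (0 : ℝ) ≤ N := Nat.cast_nonneg N
  have hk0 : 0 ≤ k := le_trans (by positivity) hk
  have Q0 : 0 ≤ C * η ^ 2 := by positivity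
  have quad : C * η ^ 2 * (a + b) * N ≤ η * μ / 2 * N := by
    have : C * η ^ 2 * (a + b) = η * (C * η * (a + b)) := by ring
    rw [this]
    have := mul_le_mul_of_nonneg_left η5' ηpos.le
    have := mul_le_mul_of_nonneg_right this N0
    linarith
  have kd : μ * N ≤ d * k := by
    have h1 : min d d' * (κ * N) ≤ d * k := by
      apply mul_le_mul (min_le_left _ _) hk (by positivity) dpos.le
    rw [hμ]; linarith
  have kd' : μ * N ≤ d' * k := by
    have h1 : min d d' * (κ * N) ≤ d' * k := by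
      apply mul_le_mul (min_le_right _ _) hk (by positivity) d'pos.le
    rw [hμ]; linarith
  have kdη : η * (μ * N) ≤ η * (d * k) := mul_le_mul_of_nonneg_left kd ηpos.le
  have kdη' : η * (μ * N) ≤ η * (d' * k) := mul_le_mul_of_nonneg_left kd' ηpos.le
  have hηd : 0 < η * d := by positivity
  have hηd' : 0 < η * d' := by positivity
  have hdd2 : η * d * (a * N) = η * d' * (b * N) := by
    have : η * d * (a * N) = η * N * (a * d) := by ring
    rw [this, hdd]; ring
  constructor
  · intro hkm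
    have s1 : (m - k + 1) * hC (z - η) (w - η) ≤ (m - k + 1) * (hC z w + η * d + C * η ^ 2) :=
      mul_le_mul_of_nonneg_left T1 (by linarith)
    have s2 : (n + 1) * hR (z - η) (w - η) ≤ (n + 1) * (hR z w - η * d' + C * η ^ 2) :=
      mul_le_mul_of_nonneg_left T2 (le_trans (by positivity) hn1)
    have s3 : (m + 1) * (η * d) ≤ (a * N + 1) * (η * d) :=
      mul_le_mul_of_nonneg_right hm2 hηd.le
    have s4 : (b * N) * (η * d') ≤ (n + 1) * (η * d') :=
      mul_le_mul_of_nonneg_right hn1 hηd'.le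
    have s5 : (m - k + 1 + (n + 1)) * (C * η ^ 2) ≤ (a * N + 1 + (b * N + 1)) * (C * η ^ 2) :=
      mul_le_mul_of_nonneg_right (by linarith) Q0
    linarith
  · intro hkn
    have s1 : (n - k + 1) * hR (z + η) (w + η) ≤ (n - k + 1) * (hR z w + η * d' + C * η ^ 2) :=
      mul_le_mul_of_nonneg_left T4 (by linarith)
    have s2 : (m + 1) * hC (z + η) (w + η) ≤ (m + 1) * (hC z w - η * d + C * η ^ 2) :=
      mul_le_mul_of_nonneg_left T3 (le_trans (by positivity) hm1)
    have s3 : (n + 1) * (η * d') ≤ (b * N + 1) * (η * d') :=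
      mul_le_mul_of_nonneg_right hn2 hηd'.le
    have s4 : (a * N) * (η * d) ≤ (m + 1) * (η * d) :=
      mul_le_mul_of_nonneg_right hm1 hηd.le
    have s5 : (n - k + 1 + (m + 1)) * (C * η ^ 2) ≤ (a * N + 1 + (b * N + 1)) * (C * η ^ 2) :=
      mul_le_mul_of_nonneg_right (by linarith) Q0
    linarith

theorem h37_tendsto (A B : ℝ) {c : ℝ} (hc : 0 < c) :
    Tendsto (fun N : ℕ => (A * N + B) * Real.exp (-(c * N))) atTop (𝓝 0) := by
  have h0 : Tendsto (fun N : ℕ => c * (N : ℝ)) atTop atTop :=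
    tendsto_natCast_atTop_atTop.const_mul_atTop hc
  have h1 := (Real.tendsto_pow_mul_exp_neg_atTop_nhds_zero 1).comp h0
  have h2 := (Real.tendsto_pow_mul_exp_neg_atTop_nhds_zero 0).comp h0
  have h3 := (h1.const_mul (A / c)).add (h2.const_mul B)
  simp only [mul_zero, add_zero] at h3
  refine h3.congr fun N => ?_
  simp only [Function.comp, pow_one, pow_zero, one_mul]
  field_simp

theorem h37_pt {a : ℝ} (ha : 0 < a) {N : ℕ} (hN : 1 ≤ N) :
    a * N ≤ ((⌈a * N⌉₊ - 1 : ℕ) : ℝ) + 1 ∧ ((⌈a * N⌉₊ - 1 : ℕ) : ℝ) + 1 ≤ a * N + 1 := by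
  have hN' : (1 : ℝ) ≤ N := by exact_mod_cast hN
  have h1 : 0 < a * N := by positivity
  have h2 : 1 ≤ ⌈a * N⌉₊ := Nat.ceil_pos.2 h1
  have h3 : ((⌈a * N⌉₊ - 1 : ℕ) : ℝ) + 1 = ⌈a * N⌉₊ := by
    rw [Nat.cast_sub h2]; simp
  rw [h3]
  exact ⟨Nat.le_ceil _, (Nat.ceil_lt_add_one h1.le).le⟩

theorem mgf_lower (h : IsExpField P X) {a b z w : ℝ} (ha : 0 < a) (hb : 0 < b) (hz : 0 < z)
    (hzw : z < w) (hw : w < 1) (hcrit : a / w + b / (1 - w) = a / z + b / (1 - z))
    {δ : ℝ} (hδ : 0 < δ) :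
    ∀ᶠ N : ℕ in atTop, ENNReal.ofReal (Real.exp (N * (a * hC z w + b * hR z w - δ))) ≤
      emom P X (w - z) (0, 0) (pt a b N) := by
  have hcp := h37_hC_pos hz hzw
  have hrp := h37_hR_pos hzw hw
  have hw0 : 0 < w := hz.trans hzw
  set H : ℝ := hC z w + hR z w with hHdef
  have hH : 0 < H := by positivity
  set κ : ℝ := δ / (2 * H) with hκdef
  have hκ : 0 < κ := by positivity
  have hκH : κ * H = δ / 2 := by rw [hκdef]; field_simp
  obtain ⟨c, hc, η, hη, hηz, hηw, hfar⟩ := h37_far ha hb hz hzw hw hcrit hκ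
  have hlim : Tendsto (fun N : ℕ => ((a + b) * N + 2) * Real.exp (-(c * N)) +
      Real.exp H * (((a + b) * N + 2) * Real.exp (-(δ / 2 * N)))) atTop (𝓝 0) := by
    have := (h37_tendsto (a + b) 2 hc).add
      ((h37_tendsto (a + b) 2 (half_pos hδ)).const_mul (Real.exp H))
    simpa using this
  have hN : ∀ᶠ N : ℕ in atTop, ((a + b) * N + 2) * Real.exp (-(c * N)) +
      Real.exp H * (((a + b) * N + 2) * Real.exp (-(δ / 2 * N))) < 1 :=
    hlim.eventually_lt_const zero_lt_one
  filter_upwards [hfar, hN, eventually_ge_atTop 1] with N hfar hN hN1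
  by_contra hlt
  rw [not_le] at hlt
  have hpt : pt a b N = (⌈a * N⌉₊ - 1, ⌈b * N⌉₊ - 1) := rfl
  obtain ⟨hm1, hm2⟩ := h37_pt ha hN1
  obtain ⟨hn1, hn2⟩ := h37_pt hb hN1
  rw [hpt] at hlt
  generalize ⌈a * N⌉₊ - 1 = m at *
  generalize ⌈b * N⌉₊ - 1 = n at *
  set T : ℝ := (m + 1) * hC z w + (n + 1) * hR z w with hT
  have N0 : (0 : ℝ) ≤ N := Nat.cast_nonneg N
  have hTN : N * (a * hC z w + b * hR z w - δ) ≤ T - δ * N := by
    have h1 := mul_le_mul_of_nonneg_right hm1 hcp.le
    have h2 := mul_le_mul_of_nonneg_right hn1 hrp.le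
    rw [hT]; linarith
  have hexp2 : ∀ x y : ℝ, ENNReal.ofReal (Real.exp x) * ENNReal.ofReal (Real.exp y) =
      ENNReal.ofReal (Real.exp (x + y)) := fun x y => by
    rw [← ENNReal.ofReal_mul (Real.exp_pos _).le, Real.exp_add]
  set Z : ℝ≥0∞ := ENNReal.ofReal (Real.exp (T - c * N) + Real.exp (T + H - δ / 2 * N)) with hZ
  have near : ∀ x : ℝ, ∀ q : ℕ × ℕ, x ≤ (κ * N + 1) * H → q ≤ (m, n) →
      ENNReal.ofReal (Real.exp x) * emom P X (w - z) (0, 0) q ≤ Z := by
    intro x q hx hq
    calc ENNReal.ofReal (Real.exp x) * emom P X (w - z) (0, 0) q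
        ≤ ENNReal.ofReal (Real.exp ((κ * N + 1) * H)) *
          ENNReal.ofReal (Real.exp (N * (a * hC z w + b * hR z w - δ))) := by
          gcongr
          exact (h37_emom_mono h (by linarith) hq).trans hlt.le
      _ ≤ ENNReal.ofReal (Real.exp (T + H - δ / 2 * N)) := by
          rw [hexp2]
          refine ENNReal.ofReal_le_ofReal (Real.exp_le_exp.2 ?_)
          have : (κ * N + 1) * H = δ / 2 * N + H := by
            rw [add_mul, one_mul, mul_right_comm, hκH]
          rw [this]; linarith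
      _ ≤ Z := by
          rw [hZ]
          refine ENNReal.ofReal_le_ofReal ?_
          have := (Real.exp_pos (T - c * N)).le
          linarith
  have far : ∀ x y : ℝ, ∀ E : ℝ≥0∞, E ≤ ENNReal.ofReal (Real.exp y) → x + y ≤ T - c * N →
      ENNReal.ofReal (Real.exp x) * E ≤ Z := by
    intro x y E hE hxy
    calc ENNReal.ofReal (Real.exp x) * E ≤
        ENNReal.ofReal (Real.exp x) * ENNReal.ofReal (Real.exp y) := by gcongr
      _ = ENNReal.ofReal (Real.exp (x + y)) := hexp2 x y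
      _ ≤ Z := by
          rw [hZ]
          refine ENNReal.ofReal_le_ofReal ?_
          have h1 := Real.exp_le_exp.2 hxy
          have := (Real.exp_pos (T + H - δ / 2 * N)).le
          linarith
  have hkN : ∀ k : ℕ, (k : ℝ) < κ * N → (k + 1) * hC z w ≤ (κ * N + 1) * H ∧
      (k + 1) * hR z w ≤ (κ * N + 1) * H := by
    intro k hk
    have hk0 : (0 : ℝ) ≤ k := Nat.cast_nonneg k
    constructor
    · apply mul_le_mul (by linarith) (by linarith) hcp.le (by positivity)
    · apply mul_le_mul (by linarith) (by linarith) hrp.le (by positivity)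
  have hexit := mgf_exit h hz hzw hw m n
  have s1 : ∑ k ∈ Finset.range (m + 1),
      ENNReal.ofReal (Real.exp ((k + 1) * hC z w)) * emom P X (w - z) (0, 0) (m - k, n) ≤
      (m + 1 : ℕ) * Z := by
    have : ∀ k ∈ Finset.range (m + 1), ENNReal.ofReal (Real.exp ((k + 1) * hC z w)) *
        emom P X (w - z) (0, 0) (m - k, n) ≤ Z := by
      intro k hk
      have hkm : k ≤ m := Nat.lt_succ_iff.1 (Finset.mem_range.1 hk)
      have hkm' : (k : ℝ) ≤ m := by exact_mod_cast hkm
      by_cases hκk : κ * N ≤ k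
      · have hu := mgf_upper h (z := z - η) (w := w - η) (by linarith) (by linarith)
          (by linarith) (0, 0) (m - k) n
        have e : w - η - (z - η) = w - z := by ring
        simp only [zero_add, e] at hu
        refine far _ _ _ hu ?_
        have := (hfar m n k hm1 hm2 hn1 hn2 hκk).1 hkm'
        rw [Nat.cast_sub hkm]
        exact this
      · exact near _ _ (hkN k (not_le.1 hκk)).1 ⟨Nat.sub_le _ _, le_rfl⟩
    have := Finset.sum_le_card_nsmul _ _ _ this
    rwa [Finset.card_range, nsmul_eq_mul] at this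
  have s2 : ∑ k ∈ Finset.range (n + 1),
      ENNReal.ofReal (Real.exp ((k + 1) * hR z w)) * emom P X (w - z) (0, 0) (m, n - k) ≤
      (n + 1 : ℕ) * Z := by
    have : ∀ k ∈ Finset.range (n + 1), ENNReal.ofReal (Real.exp ((k + 1) * hR z w)) *
        emom P X (w - z) (0, 0) (m, n - k) ≤ Z := by
      intro k hk
      have hkn : k ≤ n := Nat.lt_succ_iff.1 (Finset.mem_range.1 hk)
      have hkn' : (k : ℝ) ≤ n := by exact_mod_cast hkn
      by_cases hκk : κ * N ≤ k
      · have hu := mgf_upper h (z := z + η) (w := w + η) (by linarith) (by linarith)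
          (by linarith) (0, 0) m (n - k)
        have e : w + η - (z + η) = w - z := by ring
        simp only [zero_add, e] at hu
        refine far _ _ _ hu ?_
        have := (hfar m n k hm1 hm2 hn1 hn2 hκk).2 hkn'
        rw [Nat.cast_sub hkn]
        exact this
      · exact near _ _ (hkN k (not_le.1 hκk)).2 ⟨le_rfl, Nat.sub_le _ _⟩
    have := Finset.sum_le_card_nsmul _ _ _ this
    rwa [Finset.card_range, nsmul_eq_mul] at this
  have htot : ENNReal.ofReal (Real.exp T) ≤ ENNReal.ofReal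
      (((m + 1 : ℕ) + (n + 1 : ℕ)) * (Real.exp (T - c * N) + Real.exp (T + H - δ / 2 * N))) := by
    refine (hexit.trans (add_le_add s1 s2)).trans (le_of_eq ?_)
    rw [← add_mul, ENNReal.ofReal_mul (by positivity), ENNReal.ofReal_add (by positivity)
      (by positivity), ENNReal.ofReal_natCast, ENNReal.ofReal_natCast]
  rw [ENNReal.ofReal_le_ofReal_iff (by positivity)] at htot
  have e1 : Real.exp (T - c * N) = Real.exp T * Real.exp (-(c * N)) := by
    rw [← Real.exp_add]; ring_nf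
  have e2 : Real.exp (T + H - δ / 2 * N) = Real.exp T * (Real.exp H * Real.exp (-(δ / 2 * N))) := by
    rw [← Real.exp_add, ← Real.exp_add]; ring_nf
  rw [e1, e2, ← mul_add] at htot
  push_cast at htot
  have hTpos := Real.exp_pos T
  have hfin : 1 ≤ ((m + 1 : ℝ) + (n + 1)) * (Real.exp (-(c * N)) +
      Real.exp H * Real.exp (-(δ / 2 * N))) := by
    by_contra hcon
    rw [not_le] at hcon
    have := mul_lt_mul_of_pos_left hcon hTpos
    linarith
  have hR2 : ((m + 1 : ℝ) + (n + 1)) ≤ (a + b) * N + 2 := by linarith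
  have := mul_le_mul_of_nonneg_right hR2 (by positivity : 0 ≤ Real.exp (-(c * N)) +
      Real.exp H * Real.exp (-(δ / 2 * N)))
  linarith

end Helper97.LPP
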