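import Pool.Agent.Helper97.LPP.Defs

/-! LPP-5: second order bounds for the exponents. -/

namespace Helper97.LPP

theorem h37_neg_log_le {x : ℝ} (hx : -(1 / 2) ≤ x) : -Real.log (1 + x) ≤ -x + 2 * x ^ 2 := by
  have h1 : 0 < 1 + x := by linarith
  have h2 := Real.one_sub_inv_le_log_of_pos h1
  have h3 : 1 - (1 + x)⁻¹ - (x - 2 * x ^ 2) = x ^ 2 * (1 + 2 * x) / (1 + x) := by
    field_simp
    ring
  have h4 : 0 ≤ x ^ 2 * (1 + 2 * x) / (1 + x) := by
    apply div_nonneg _ h1.le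
    apply mul_nonneg (sq_nonneg x)
    linarith
  linarith

theorem hC_taylor {z w : ℝ} (hz : 0 < z) (hw : 0 < w) (A B : ℝ) :
    ∃ C > 0, ∃ t₀ > 0, ∀ t, |t| ≤ t₀ → 0 < z + A * t ∧ 0 < w + B * t ∧
      hC (z + A * t) (w + B * t) ≤ hC z w + t * (B / w - A / z) + C * t ^ 2 := by
  refine ⟨2 * (A / z) ^ 2 + 1, by positivity,
    min (z / (2 * (|A| + 1))) (w / (2 * (|B| + 1))), by positivity, ?_⟩
  intro t ht
  have key : ∀ (y D : ℝ), 0 < y → |t| ≤ y / (2 * (|D| + 1)) → |D * t / y| ≤ 1 / 2 := by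
    intro y D hy h
    have hD : 0 < |D| + 1 := by positivity
    rw [abs_div, abs_mul, abs_of_pos hy, div_le_iff₀ hy]
    rw [le_div_iff₀ (by positivity)] at h
    nlinarith [abs_nonneg t, abs_nonneg D]
  have h1 : |A * t / z| ≤ 1 / 2 := key z A hz (ht.trans (min_le_left _ _))
  have h2 : |B * t / w| ≤ 1 / 2 := key w B hw (ht.trans (min_le_right _ _))
  rw [abs_le] at h1 h2
  have e1 : z + A * t = z * (1 + A * t / z) := by field_simp
  have e2 : w + B * t = w * (1 + B * t / w) := by field_simp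
  have p1 : 0 < 1 + A * t / z := by linarith [h1.1]
  have p2 : 0 < 1 + B * t / w := by linarith [h2.1]
  refine ⟨by rw [e1]; positivity, by rw [e2]; positivity, ?_⟩
  unfold hC
  rw [e1, e2, mul_div_mul_comm, Real.log_mul (by positivity) (by positivity),
    Real.log_div p2.ne' p1.ne']
  have l1 := h37_neg_log_le h1.1
  have l2 := Real.log_le_sub_one_of_pos p2
  have e3 : (2 * (A / z) ^ 2 + 1) * t ^ 2 = 2 * (A * t / z) ^ 2 + t ^ 2 := by ring
  have e4 : t * (B / w - A / z) = B * t / w - A * t / z := by ring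
  rw [e3, e4]
  nlinarith [sq_nonneg t]

theorem hR_taylor {z w : ℝ} (hz : z < 1) (hw : w < 1) (A B : ℝ) :
    ∃ C > 0, ∃ t₀ > 0, ∀ t, |t| ≤ t₀ → z + A * t < 1 ∧ w + B * t < 1 ∧
      hR (z + A * t) (w + B * t) ≤
        hR z w + t * (B / (1 - w) - A / (1 - z)) + C * t ^ 2 := by
  obtain ⟨C, hC0, t₀, ht₀, h⟩ := hC_taylor (z := 1 - w) (w := 1 - z) (by linarith) (by linarith)
    (-B) (-A)
  refine ⟨C, hC0, t₀, ht₀, fun t ht => ?_⟩
  obtain ⟨h1, h2, h3⟩ := h t ht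
  refine ⟨by linarith, by linarith, ?_⟩
  unfold hC at h3
  unfold hR
  have e1 : 1 - (z + A * t) = 1 - z + -A * t := by ring
  have e2 : 1 - (w + B * t) = 1 - w + -B * t := by ring
  rw [e1, e2]
  refine h3.trans (le_of_eq ?_)
  ring

end Helper97.LPP
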